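import Pool.Agent.H203.ME.ALL5

set_option autoImplicit false

/-!
# All correlations of the zeros of zeta at mesoscopic distances (unconditional)

No hypothesis on the zeros is made: the zeros are counted with multiplicity, wherever they lie in the strip.
The mean over `t ∈ [T, 2T]` of a product of `k` centred linear statistics `X_j(t)` of the zeros near `t`, at scales
`h_j = h_j(T) → 0` with `h_j log T ≥ (log log T)²`, tends to the Wick sum (sum over the perfect matchings) of the
covariances `(1/2π²) ∫_0^∞ ξ Re (f̂_i conj f̂_j) dξ` (equal scales) and `0` (different scales): this is the limit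
which the sine kernel determinants of all orders predict.
-/

open Complex Filter Topology Set MeasureTheory

namespace Pool.Agent.Results.MP_67227b_nt.AllMesoscopicMoments

/-- the nontrivial zeros of zeta -/
def zeros : Set ℂ := {s : ℂ | riemannZeta s = 0 ∧ 0 < s.re ∧ s.re < 1}

/-- multiplicity of a zero of zeta -/
noncomputable def mult (s : ℂ) : ℕ := analyticOrderNatAt riemannZeta s

/-- the linear statistic `∑_γ f((γ - t)/h)`, centred by the mean density `log T / 2π` -/
noncomputable def lin (f : ℝ → ℝ) (h T t : ℝ) : ℝ :=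
  (∑ᶠ s ∈ zeros, (mult s : ℝ) * f ((s.im - t) / h)) - h * Real.log T / (2 * Real.pi) * ∫ x : ℝ, f x

/-- the Fourier transform `∫ f(x) e^{-iξx} dx` -/
noncomputable def ft (f : ℝ → ℝ) (ξ : ℝ) : ℂ := ∫ x : ℝ, (f x : ℂ) * cexp (-(((ξ * x : ℝ) : ℂ) * I))

/-- the limiting covariance at a common scale -/
noncomputable def cov (f g : ℝ → ℝ) : ℝ :=
  1 / (2 * Real.pi ^ 2) * ∫ ξ in Ioi (0 : ℝ), ξ * (ft f ξ * (starRingEnd ℂ) (ft g ξ)).re

open Classical in
/-- the limiting covariance matrix: different scales are independent -/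
noncomputable def covMatrix {k : ℕ} (f : Fin k → ℝ → ℝ) (h : Fin k → ℝ → ℝ) (i j : Fin k) : ℝ :=
  if h i = h j then cov (f i) (f j) else 0

/-- the Wick sum: the sum over the perfect matchings of `Fin k` of the products of the entries of `C` over the pairs.
Each matching is the image of `2 ^ (k/2) (k/2)!` bijections `Fin (k/2) × Fin 2 ≃ Fin k`; for odd `k` there is none. -/
noncomputable def wick {k : ℕ} (C : Fin k → Fin k → ℝ) : ℝ :=
  1 / (2 ^ (k / 2) * ((k / 2).factorial : ℝ)) * ∑ e : (Fin (k / 2) × Fin 2) ≃ Fin k, ∏ l, C (e (l, 0)) (e (l, 1))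

/-- **All mixed moments at mesoscopic scales, at a random height.** -/
theorem result {k : ℕ} (f : Fin k → ℝ → ℝ) (hf : ∀ j, ContDiff ℝ 2 (f j)) (hs : ∀ j, HasCompactSupport (f j))
    (h : Fin k → ℝ → ℝ) (h0 : ∀ j, Tendsto (h j) atTop (𝓝 0))
    (h1 : ∀ j, ∀ᶠ T : ℝ in atTop, Real.log (Real.log T) ^ 2 ≤ h j T * Real.log T)
    (hsep : ∀ i j, h i ≠ h j →
      Tendsto (fun T => h i T / h j T) atTop (𝓝 0) ∨ Tendsto (fun T => h j T / h i T) atTop (𝓝 0)) :
    Tendsto (fun T : ℝ => 1 / T * ∫ t in T..(2 * T), ∏ j, lin (f j) (h j T) T t) atTop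
      (𝓝 (wick (covMatrix f h))) := by
  have hinf : ∀ j, Tendsto (fun T => h j T * Real.log T) atTop atTop := fun j => by
    refine tendsto_atTop_mono' atTop (h1 j) ?_
    exact (tendsto_pow_atTop (two_ne_zero)).comp (Real.tendsto_log_atTop.comp Real.tendsto_log_atTop)
  have hh : Pool.Agent.H203.ME.Scales h := ⟨h0, hinf, hsep⟩
  have hM : wick (covMatrix f h) = Pool.Agent.H203.ME.wick (Pool.Agent.H203.ME.cM f h) := rfl
  rw [hM]
  refine (Pool.Agent.H203.ME.fin6 Pool.Agent.H203.ME.p_MAIN Pool.Agent.H203.ME.t_ADM Pool.Agent.H203.ME.t_COV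
    Pool.Agent.H203.ME.p_BMX Pool.Agent.H203.ME.t_ONE Pool.Agent.H203.ME.t_PO1 Pool.Agent.H203.ME.t_PO2
    hf hs hh h1).congr' ?_
  filter_upwards [Pool.Agent.H203.ME.FINL.pos hh] with T hT
  congr 1
  apply intervalIntegral.integral_congr
  intro t _
  refine Finset.prod_congr rfl fun j _ => ?_
  exact Pool.Agent.H203.ME.FINL.XF_scale (f j) (hT j) T t

end Pool.Agent.Results.MP_67227b_nt.AllMesoscopicMoments
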