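import Pool.Agent.H606.GU.Final
import Pool.Agent.H606.GU.Pcc

open MeasureTheory Filter Topology

namespace Pool.Agent.Results.MP_67227b_nt.CorrelationHierarchy

/-- multiplicity of `s` as a zero of the Riemann zeta function (order of vanishing at `s`) -/
noncomputable def zmult (s : ℂ) : ℕ := analyticOrderNatAt riemannZeta s

/-- the number of nontrivial zeros of `ζ` with ordinate in `(0, t]`, with multiplicity -/
noncomputable def NZ (t : ℝ) : ℕ :=
  ∑ᶠ s ∈ {s : ℂ | riemannZeta s = 0 ∧ 0 < s.re ∧ s.re < 1 ∧ 0 < s.im ∧ s.im ≤ t}, zmult s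

/-- for `n ≥ 1`: the `n`-th positive ordinate `γ n` of a nontrivial zero of `ζ`, the ordinates being
listed in nondecreasing order and repeated according to multiplicity -/
noncomputable def γ (n : ℕ) : ℝ := sInf {t : ℝ | n ≤ NZ t}

/-- the unfolded consecutive gaps `δ_n = (γ_{n+1} - γ_n) / 2π · log (γ_n / 2π)` -/
noncomputable def δ (n : ℕ) : ℝ := (γ (n + 1) - γ n) / (2 * Real.pi) * Real.log (γ n / (2 * Real.pi))

/-- `N_k(T; B)` with `k = r + 1` and `B = ∏ [a_i, b_i]`: the number of `k`-tuples of pairwise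
distinct indices with ordinates at most `T` whose normalised differences with the last ordinate
lie in the box `B` -/
noncomputable def Nk (r : ℕ) (T : ℝ) (a b : Fin r → ℝ) : ℕ :=
  {j : Fin (r + 1) → ℕ | Function.Injective j ∧ (∀ i, 1 ≤ j i ∧ γ (j i) ≤ T) ∧
    ∀ i : Fin r, (γ (j i.castSucc) - γ (j (Fin.last r))) * (Real.log T / (2 * Real.pi)) ∈
      Set.Icc (a i) (b i)}.ncard

/-- `det [sin π(u_i - u_j) / π(u_i - u_j)]`, the correlation functions of the sine process -/
noncomputable def detA {α : Type} [Fintype α] [DecidableEq α] (u : α → ℝ) : ℝ :=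
  (Matrix.of fun i j => Real.sinc (Real.pi * (u i - u j))).det

/-- the main term `∫_B det A(u_1, …, u_r, 0) du` for the box `B = ∏ [a_i, b_i]` -/
noncomputable def W {r : ℕ} (a b : Fin r → ℝ) : ℝ :=
  ∫ u in Set.Icc a b, detA (Fin.snoc (α := fun _ => ℝ) u 0)

/-- `E(s) = det (1 - K_s) = ∑ (-1)^k / k! ∫_{[0,s]^k} det A` (Fredholm determinant of the sine
kernel on `(0, s)`) -/
noncomputable def E (s : ℝ) : ℝ := ∑' k : ℕ, (-1 : ℝ) ^ k / (k.factorial : ℝ) *
  ∫ y in Set.Icc (0 : Fin k → ℝ) (fun _ => s), detA y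

/-- the Gaudin density `p = E''` -/
noncomputable def p (s : ℝ) : ℝ := deriv (deriv E) s

/-- the upper half of the correlation conjecture at level `k = r + 1` with the constant `c`:
`limsup N_k(T; B) / ((T / 2π) log T) ≤ c ∫_B det A` for every box `B` -/
def Upper (r : ℕ) (c : ℝ) : Prop := ∀ a b : Fin r → ℝ, ∀ ε : ℝ, 0 < ε → ∀ᶠ T in atTop,
  (Nk r T a b : ℝ) ≤ (c * W a b + ε) * (T / (2 * Real.pi) * Real.log T)

/-- the correlation conjecture at level `k = r + 1` -/
def Corr (r : ℕ) : Prop := ∀ a b : Fin r → ℝ,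
  Tendsto (fun T => (Nk r T a b : ℝ) / (T / (2 * Real.pi) * Real.log T)) atTop (𝓝 (W a b))

/-- **The hierarchy of the correlation conjectures for the zeros of zeta.**
No hypothesis on the zeros is used. Let `C_k` be the best constant in the upper half at level `k`.
(1) `C_k ^ j ≤ C_n` for `j k ≤ n`.
(2) The upper half with the constant `1` at one level `n ≥ 2` implies the correlation conjecture at
all levels `k ≤ n / 2 + 1`.
(3) The correlation conjecture at level `n` implies the one at every level `k ≤ n`, and `C_n ≤ 1`.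
(4) If `liminf C_k ^ (1/k) ≤ 1` (for every `δ > 0` the constant `(1 + δ)^k` is admissible at
arbitrarily large levels `k`), then the correlation conjecture holds at every level, and so does the
spacing law. -/
theorem result :
    (∀ (j k r : ℕ) (b c : ℝ), 1 ≤ j → j * (k + 1) ≤ r + 1 → 0 ≤ b → 0 ≤ c → c ≤ b ^ j →
      Upper r c → Upper k b) ∧
    (∀ r k : ℕ, 1 ≤ r → 2 * k ≤ r + 1 → Upper r 1 → Corr k) ∧
    (∀ k r : ℕ, k ≤ r → Corr r → Corr k ∧ Upper r 1) ∧
    ((∀ δ : ℝ, 0 < δ → ∀ k₀ : ℕ, ∃ r : ℕ, k₀ ≤ r ∧ Upper r ((1 + δ) ^ (r + 1))) →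
      (∀ r : ℕ, Corr r) ∧
      ∀ α β : ℝ, 0 < α → α < β → Tendsto (fun N : ℕ => (1 / N : ℝ) *
        ({n : ℕ | 1 ≤ n ∧ n ≤ N ∧ α ≤ δ n ∧ δ n ≤ β}.ncard : ℝ)) atTop
          (𝓝 (∫ s in α..β, p s))) := by
  refine ⟨?_, ?_, ?_, fun H => ⟨?_, ?_⟩⟩
  · intro j k r b c hj hjk hb hc hcb h
    exact Pool.Agent.H606.GU.root_zeta hj hjk hb hc hcb h
  · intro r k hr hk h
    exact Pool.Agent.H606.GU.one_level hr h k hk
  · intro k r hkr h
    exact ⟨Pool.Agent.H606.GU.down_zeta hkr h, Pool.Agent.H606.GU.conv_zeta r h⟩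
  · intro r a b
    exact Pool.Agent.H606.GU.corr_zeta Pool.Agent.H606.GU.all_main H r a b
  · intro α β hα hαβ
    exact Pool.Agent.H606.GU.gaps_zeta Pool.Agent.H606.GU.all_main H α β hα hαβ

end Pool.Agent.Results.MP_67227b_nt.CorrelationHierarchy
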