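import Pool.Agent.H478.LD11

/-!
# Moderate and large deviations of the number of zeta zeros in intervals of `r` mean spacings

The GUE conjecture for all `k`-level correlations predicts that the number of zeros in an interval
of `r` mean spacings, and the distance from a zero to the `r`-th following zero, have variance
`(1/π²) log r + O(1)` and tails `exp (-(1 + o(1)) π² z² / (2 log r))` for deviations `z` well beyond
the standard deviation.  On the Riemann hypothesis we prove this, with matching upper and lower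
bounds, for `K √(log r) ≤ z ≤ c log r log log r`.
-/

open MeasureTheory Filter

namespace Pool.Agent.Results.MP_67227b_nt.LargeDeviations

/-- the number of nontrivial zeros of zeta with ordinate in `(0, t]`, with multiplicity -/
noncomputable def NZ (t : ℝ) : ℕ :=
  ∑ᶠ s ∈ {s : ℂ | riemannZeta s = 0 ∧ 0 < s.re ∧ s.re < 1 ∧ 0 < s.im ∧ s.im ≤ t},
    analyticOrderNatAt riemannZeta s

/-- the `n`-th positive ordinate (`n ≥ 1`), ordinates repeated according to multiplicity -/
noncomputable def ord (n : ℕ) : ℝ := sInf {t : ℝ | n ≤ NZ t}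

/-- the number of zeros with ordinate in `(t, t + 2π r / log T]` minus `r` -/
noncomputable def X (r : ℕ) (T t : ℝ) : ℝ := (NZ (t + 2 * Real.pi * r / Real.log T) : ℝ) - NZ t - r

/-- the normalised distance `(γ_{n+r} - γ_n) log γ_n / 2π` from the `n`-th zero to the `r`-th
following one, minus `r` -/
noncomputable def W (n r : ℕ) : ℝ := (ord (n + r) - ord n) * Real.log (ord n) / (2 * Real.pi) - r

/-- the exponent `π² z² / (2 log r)` -/
noncomputable def G (r : ℕ) (z : ℝ) : ℝ := Real.pi ^ 2 * z ^ 2 / (2 * Real.log r)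

/-- the number of `n ≤ N` with the property `Q` -/
noncomputable def cnt (N : ℕ) (Q : ℕ → Prop) : ℝ := (({n : ℕ | 1 ≤ n ∧ n ≤ N ∧ Q n}.ncard : ℕ) : ℝ)

/-- the measure of the `t ∈ [T, 2T]` with the property `P` -/
noncomputable def mes (T : ℝ) (P : ℝ → Prop) : ENNReal := volume {t : ℝ | T ≤ t ∧ t ≤ 2 * T ∧ P t}

/-- **Moderate and large deviations**, under RH.  (1) For the number of zeros in the interval of
`r` mean spacings to the right of a random height `t ∈ [T, 2T]`.  (2) For the distance from a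
random zero to the `r`-th following one; here `N0` does not depend on `z`. -/
theorem result (RH : RiemannHypothesis) (ε : ℝ) (hε : 0 < ε) :
    ∃ K c : ℝ, 0 < c ∧ ∃ r0 : ℕ, ∀ r : ℕ, r0 ≤ r →
      (∀ z : ℝ, K * Real.sqrt (Real.log r) ≤ z → z ≤ c * Real.log r * Real.log (Real.log r) →
        ∃ T0 : ℝ, ∀ T : ℝ, T0 ≤ T →
        (ENNReal.ofReal (Real.exp (-((1 + ε) * G r z)) * T) ≤ mes T (fun t => z ≤ X r T t) ∧
          mes T (fun t => z ≤ X r T t) ≤ ENNReal.ofReal (Real.exp (-((1 - ε) * G r z)) * T)) ∧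
        (ENNReal.ofReal (Real.exp (-((1 + ε) * G r z)) * T) ≤ mes T (fun t => X r T t ≤ -z) ∧
          mes T (fun t => X r T t ≤ -z) ≤ ENNReal.ofReal (Real.exp (-((1 - ε) * G r z)) * T))) ∧
      ∃ N0 : ℕ, ∀ N : ℕ, N0 ≤ N →
        ∀ z : ℝ, K * Real.sqrt (Real.log r) ≤ z → z ≤ c * Real.log r * Real.log (Real.log r) →
        (Real.exp (-((1 + ε) * G r z)) * N ≤ cnt N (fun n => z ≤ W n r) ∧
          cnt N (fun n => z ≤ W n r) ≤ Real.exp (-((1 - ε) * G r z)) * N) ∧
        (Real.exp (-((1 + ε) * G r z)) * N ≤ cnt N (fun n => W n r ≤ -z) ∧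
          cnt N (fun n => W n r ≤ -z) ≤ Real.exp (-((1 - ε) * G r z)) * N) := by
  have he0 : 0 < min ε 1 := lt_min hε one_pos
  have hee : min ε 1 ≤ ε := min_le_left _ _
  obtain ⟨K, c, hK, hc, h⟩ := Pool.Agent.H478.LD.unif RH he0 (min_le_right _ _)
  obtain ⟨K', c', hK', hc', h'⟩ := Pool.Agent.H478.LD.win_dev RH he0 (min_le_right _ _)
  obtain ⟨r0, h⟩ := eventually_atTop.1 ((h.and h').and
    (Pool.Agent.H478.EX.nlog.eventually_ge_atTop 1))
  refine ⟨K + K', min c c', lt_min hc hc', r0, fun r hr => ?_⟩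
  obtain ⟨⟨h, h'⟩, hℓ⟩ := h r hr
  have hs : 0 ≤ Real.sqrt (Real.log r) := Real.sqrt_nonneg _
  have hll : 0 ≤ Real.log (Real.log r) := Real.log_nonneg hℓ
  have hb1 : ∀ z : ℝ, (K + K') * Real.sqrt (Real.log r) ≤ z → K * Real.sqrt (Real.log r) ≤ z ∧
      K' * Real.sqrt (Real.log r) ≤ z := by
    intro z hz
    constructor <;> nlinarith
  have hb2 : ∀ z : ℝ, z ≤ min c c' * Real.log r * Real.log (Real.log r) →
      z ≤ c * Real.log r * Real.log (Real.log r) ∧ z ≤ c' * Real.log r * Real.log (Real.log r) := by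
    intro z hz
    have a1 : min c c' ≤ c := min_le_left _ _
    have a2 : min c c' ≤ c' := min_le_right _ _
    constructor
    · exact hz.trans (by gcongr)
    · exact hz.trans (by gcongr)
  have hG0 : ∀ z, 0 ≤ G r z := fun z => Pool.Agent.H478.LD.Gx_nonneg (by linarith)
  have q1 : ∀ z, Real.exp (-((1 + ε) * G r z)) ≤ Real.exp (-((1 + min ε 1) * G r z)) := by
    intro z
    have := hG0 z
    gcongr
  have q2 : ∀ z, Real.exp (-((1 - min ε 1) * G r z)) ≤ Real.exp (-((1 - ε) * G r z)) := by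
    intro z
    have := hG0 z
    gcongr
  constructor
  · intro z hz1 hz2
    obtain ⟨T0, h1⟩ := eventually_atTop.1 ((h' z (hb1 z hz1).2 (hb2 z hz2).2).and
      (eventually_ge_atTop 0))
    refine ⟨T0, fun T hT => ?_⟩
    obtain ⟨⟨l1, l2, u⟩, hT0⟩ := h1 T hT
    have eX : ∀ t, Pool.Agent.H478.LD.win r T t = X r T t + r := by
      intro t
      unfold X
      rw [sub_add_cancel]
      rfl
    have s1 : {t : ℝ | T ≤ t ∧ t ≤ 2 * T ∧ r + z ≤ Pool.Agent.H478.LD.win r T t} =
        {t : ℝ | T ≤ t ∧ t ≤ 2 * T ∧ z ≤ X r T t} := by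
      ext t
      simp only [Set.mem_ofPred_eq, eX]
      constructor <;> rintro ⟨a, b, c⟩ <;> exact ⟨a, b, by linarith⟩
    have s2 : {t : ℝ | T ≤ t ∧ t ≤ 2 * T ∧ Pool.Agent.H478.LD.win r T t ≤ r - z} =
        {t : ℝ | T ≤ t ∧ t ≤ 2 * T ∧ X r T t ≤ -z} := by
      ext t
      simp only [Set.mem_ofPred_eq, eX]
      constructor <;> rintro ⟨a, b, c⟩ <;> exact ⟨a, b, by linarith⟩
    have u1 : mes T (fun t => z ≤ X r T t) ≤ volume {t : ℝ | T ≤ t ∧ t ≤ 2 * T ∧
        (r + z ≤ Pool.Agent.H478.LD.win r T t ∨ Pool.Agent.H478.LD.win r T t ≤ r - z)} := by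
      unfold mes
      rw [← s1]
      exact measure_mono fun t ht => ⟨ht.1, ht.2.1, Or.inl ht.2.2⟩
    have u2 : mes T (fun t => X r T t ≤ -z) ≤ volume {t : ℝ | T ≤ t ∧ t ≤ 2 * T ∧
        (r + z ≤ Pool.Agent.H478.LD.win r T t ∨ Pool.Agent.H478.LD.win r T t ≤ r - z)} := by
      unfold mes
      rw [← s2]
      exact measure_mono fun t ht => ⟨ht.1, ht.2.1, Or.inr ht.2.2⟩
    rw [s1] at l1
    rw [s2] at l2
    have c1 : ENNReal.ofReal (Real.exp (-((1 + ε) * G r z)) * T) ≤
        ENNReal.ofReal (Real.exp (-((1 + min ε 1) * G r z)) * T) := by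
      apply ENNReal.ofReal_le_ofReal
      have := q1 z
      gcongr
    have c2 : ENNReal.ofReal (Real.exp (-((1 - min ε 1) * G r z)) * T) ≤
        ENNReal.ofReal (Real.exp (-((1 - ε) * G r z)) * T) := by
      apply ENNReal.ofReal_le_ofReal
      have := q2 z
      gcongr
    exact ⟨⟨c1.trans l1, u1.trans (u.trans c2)⟩, ⟨c1.trans l2, u2.trans (u.trans c2)⟩⟩
  · obtain ⟨N0, h⟩ := eventually_atTop.1 (h _ (Pool.Agent.H478.LD.cmp_Sp r))
    refine ⟨N0, fun N hN z hz1 hz2 => ?_⟩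
    obtain ⟨h1, h2, h3⟩ := h N hN z (hb1 z hz1).1 (hb2 z hz2).1
    have hG : Pool.Agent.H478.LD.Gx (Real.log r) z = G r z := rfl
    rw [hG] at h1 h2 h3
    have hN0 : (0 : ℝ) ≤ N := Nat.cast_nonneg _
    have b1 : Real.exp (-((1 + ε) * G r z)) * N ≤ Real.exp (-((1 + min ε 1) * G r z)) * N := by
      have := q1 z
      gcongr
    have b2 : Real.exp (-((1 - min ε 1) * G r z)) * N ≤ Real.exp (-((1 - ε) * G r z)) * N := by
      have := q2 z
      gcongr
    have eW : ∀ n, Pool.Agent.H478.LD.Sp r n = W n r + r := by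
      intro n
      unfold W
      rw [sub_add_cancel]
      rfl
    have e1 : ∀ (Q Q' : ℕ → Prop), (∀ n, Q n ↔ Q' n) → cnt N Q = Pool.Agent.H478.LD.cnt Q' N := by
      intro Q Q' hQ
      have : Q = Q' := funext fun n => propext (hQ n)
      rw [this]
      rfl
    rw [e1 (fun n => z ≤ W n r) (fun n => r + z ≤ Pool.Agent.H478.LD.Sp r n) (fun n => by
        rw [eW]; constructor <;> intro h <;> linarith),
      e1 (fun n => W n r ≤ -z) (fun n => Pool.Agent.H478.LD.Sp r n ≤ r - z) (fun n => by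
        rw [eW]; constructor <;> intro h <;> linarith)]
    have c1 := Pool.Agent.H478.LD.cnt_mono (Q := fun n => r + z ≤ Pool.Agent.H478.LD.Sp r n)
      (Q' := fun n => r + z ≤ Pool.Agent.H478.LD.Sp r n ∨ Pool.Agent.H478.LD.Sp r n ≤ r - z)
      (fun n hn => Or.inl hn) N
    have c2 := Pool.Agent.H478.LD.cnt_mono (Q := fun n => Pool.Agent.H478.LD.Sp r n ≤ r - z)
      (Q' := fun n => r + z ≤ Pool.Agent.H478.LD.Sp r n ∨ Pool.Agent.H478.LD.Sp r n ≤ r - z)
      (fun n hn => Or.inr hn) N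
    exact ⟨⟨b1.trans h1, c1.trans (h3.trans b2)⟩, ⟨b1.trans h2, c2.trans (h3.trans b2)⟩⟩

end Pool.Agent.Results.MP_67227b_nt.LargeDeviations
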