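import Pool.Agent.H478.RG8

/-! The charge sum rule (perfect screening) for all correlations of the zeros of zeta. -/

open MeasureTheory Filter

namespace Pool.Agent.Results.MP_67227b_nt.PerfectScreening

/-- the number of nontrivial zeros of zeta with ordinate in `(0, t]`, with multiplicity -/
noncomputable def NZ (t : ℝ) : ℕ :=
  ∑ᶠ s ∈ {s : ℂ | riemannZeta s = 0 ∧ 0 < s.re ∧ s.re < 1 ∧ 0 < s.im ∧ s.im ≤ t},
    analyticOrderNatAt riemannZeta s

/-- the `n`-th positive ordinate (`n ≥ 1`), ordinates repeated according to multiplicity -/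
noncomputable def ord (n : ℕ) : ℝ := sInf {t : ℝ | n ≤ NZ t}

/-- the difference `(γ_i - γ_j) log T / 2π` -/
noncomputable def dif (T : ℝ) (i j : ℕ) : ℝ := (ord i - ord j) * Real.log T / (2 * Real.pi)

/-- the `(k+1)`-tuples of distinct indices counted by `N_{k+1}(T; B)`, where `B` is the box
`[a_1, b_1] × … × [a_k, b_k]` -/
def Tuples (k : ℕ) (T : ℝ) (a b : Fin k → ℝ) : Set (Fin (k + 1) → ℕ) :=
  {j | Function.Injective j ∧ (∀ i, 1 ≤ j i ∧ ord (j i) ≤ T) ∧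
    ∀ i : Fin k, a i ≤ dif T (j i.castSucc) (j (Fin.last k)) ∧
      dif T (j i.castSucc) (j (Fin.last k)) ≤ b i}

/-- the kernel: the mean over `i < J` of `sinc (π u / (Y 2^i)) ^ 2` -/
noncomputable def kern (J : ℕ) (Y u : ℝ) : ℝ :=
  1 / J * ∑ i ∈ Finset.range J, Real.sinc (Real.pi * (u / (Y * 2 ^ i))) ^ 2

/-- the integral of the kernel: the mean over `i < J` of `Y 2^i` -/
noncomputable def cst (J : ℕ) (Y : ℝ) : ℝ := 1 / J * ∑ i ∈ Finset.range J, Y * 2 ^ i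

/-- the weighted number of the zeros outside the tuple `j` at distance at most `X` -/
noncomputable def others (k J : ℕ) (Y X T : ℝ) (j : Fin (k + 1) → ℕ) : ℝ :=
  ∑ᶠ m ∈ {m : ℕ | 1 ≤ m ∧ (∀ i, m ≠ j i) ∧ |dif T m (j (Fin.last k))| ≤ X},
    kern J Y (dif T m (j (Fin.last k)))

/-- **Perfect screening**, under RH: whatever the tuple of `k + 1` zeros in the box, the weighted
number of the other zeros is `cst - (k + 1)` in the mean. -/
theorem result (RH : RiemannHypothesis) (k : ℕ) (a b : Fin k → ℝ) (ε : ℝ) (hε : 0 < ε) :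
    ∃ Y0 : ℝ, ∀ Y : ℝ, Y0 ≤ Y → ∃ J0 : ℕ, ∀ J : ℕ, J0 ≤ J → ∃ X0 : ℝ, ∀ X : ℝ, X0 ≤ X →
      ∃ T0 : ℝ, ∀ T : ℝ, T0 ≤ T →
        ∑ᶠ j ∈ Tuples k T a b, |others k J Y X T j - (cst J Y - (k + 1))| ≤
          ε * (T / (2 * Real.pi) * Real.log T) := by
  obtain ⟨Y0, h⟩ := eventually_atTop.1 (Pool.Agent.H478.RG.screening RH k a b hε)
  refine ⟨Y0, fun Y hY => ?_⟩
  obtain ⟨J0, h⟩ := eventually_atTop.1 (h Y hY)
  refine ⟨J0, fun J hJ => ?_⟩
  obtain ⟨X0, h⟩ := eventually_atTop.1 (h J hJ)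
  refine ⟨X0, fun X hX => ?_⟩
  obtain ⟨T0, h⟩ := eventually_atTop.1 (h X hX)
  exact ⟨T0, fun T hT => h T hT⟩

end Pool.Agent.Results.MP_67227b_nt.PerfectScreening
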